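import Mathlib
import Pool.Agent.Lib_helper64.Cut.Final

/-!
# Random walks on expander Cayley graphs need not have a cut-off
-/

set_option autoImplicit false

namespace Pool.Agent.Results.MP_243c22_pr.ExpanderNoCutoff

open Filter Topology

section Defs

variable {G : Type} [Group G]

/-- The vertex boundary of `A` in the Cayley graph of `(G, S)`: the elements outside `A` which are
of the form `a * s` with `a ∈ A` and `s ∈ S`. -/
def bd [Fintype G] [DecidableEq G] (S A : Finset G) : Finset G :=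
  Finset.univ.filter fun x => x ∉ A ∧ ∃ a ∈ A, ∃ s ∈ S, x = a * s

/-- `S` is a symmetric generating set of `G` and the Cayley graph of `(G, S)` is an
`(m, k, ε)`-expander: `|G| = m`, `|S| = k`, and `|∂A| ≥ ε |A|` for all `A` with `|A| ≤ m / 2`. -/
def IsExpander [Fintype G] [DecidableEq G] (m k : ℕ) (ε : ℝ) (S : Finset G) : Prop :=
  Fintype.card G = m ∧ S.card = k ∧ (∀ s ∈ S, s⁻¹ ∈ S) ∧ Subgroup.closure (S : Set G) = ⊤ ∧
    ∀ A : Finset G, (A.card : ℝ) ≤ m / 2 → ε * A.card ≤ ((bd S A).card : ℝ)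

/-- The convolution of two functions on `G`. -/
def conv [Fintype G] (p q : G → ℝ) (x : G) : ℝ := ∑ y : G, p y * q (y⁻¹ * x)

/-- The `j`-fold convolution power of `p`: the law of the walk with steps of law `p`, started at
the identity, at time `j`. -/
noncomputable def cpow [Fintype G] [DecidableEq G] (p : G → ℝ) : ℕ → G → ℝ
  | 0 => fun x => if x = 1 then 1 else 0
  | j + 1 => conv (cpow p j) p

/-- The total variation distance `max_A |p^(j)(A) - u(A)|`, `u` the uniform distribution. -/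
noncomputable def tvd [Fintype G] [DecidableEq G] (p : G → ℝ) (j : ℕ) : ℝ :=
  (Finset.univ : Finset (Finset G)).sup' ⟨∅, Finset.mem_univ ∅⟩ fun A =>
    |∑ x ∈ A, cpow p j x - (A.card : ℝ) / (Fintype.card G : ℝ)|

end Defs

/-- The sequence `(G n, S n)` is a family of expanders: `|G n| → ∞`, and there are `k` and
`ε > 0` such that `|S n| ≤ k` and `(G n, S n)` is a `(|G n|, |S n|, ε)`-expander for all `n`. -/
def ExpanderFamily (G : ℕ → Type) [∀ n, Group (G n)] [∀ n, Fintype (G n)]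
    [∀ n, DecidableEq (G n)] (S : ∀ n, Finset (G n)) : Prop :=
  Tendsto (fun n => Fintype.card (G n)) atTop atTop ∧
    ∃ (k : ℕ) (ε : ℝ), 0 < ε ∧ ∀ n, (S n).card ≤ k ∧
      IsExpander (Fintype.card (G n)) (S n).card ε (S n)

/-- The hypotheses (H) with the constant `r`. -/
def Hyp (r : ℝ) (G : ℕ → Type) [∀ n, Group (G n)] [∀ n, Fintype (G n)]
    [∀ n, DecidableEq (G n)] (S : ∀ n, Finset (G n)) (p : ∀ n, G n → ℝ) : Prop :=
  ExpanderFamily G S ∧ ∀ n, (1 : G n) ∈ S n ∧ (∀ g, 0 ≤ p n g) ∧ ∑ g, p n g = 1 ∧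
    (∀ s ∈ S n, 1 / r ≤ p n s) ∧
    (((Finset.univ : Finset (G n)).filter fun g => 0 < p n g).card : ℝ) ≤ r

/-- The family `(G n, p n)` has a cut-off in total variation: there are times `t n → ∞` such that
for all `δ` in `(0, 1)` the distance at time `⌊(1 + δ) t n⌋` tends to `0` and the distance at
time `⌊(1 - δ) t n⌋` tends to `1`. -/
def HasCutoff (G : ℕ → Type) [∀ n, Group (G n)] [∀ n, Fintype (G n)]
    [∀ n, DecidableEq (G n)] (p : ∀ n, G n → ℝ) : Prop :=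
  ∃ t : ℕ → ℝ, Tendsto t atTop atTop ∧ ∀ δ : ℝ, 0 < δ → δ < 1 →
    Tendsto (fun n => tvd (p n) ⌊(1 + δ) * t n⌋₊) atTop (𝓝 0) ∧
    Tendsto (fun n => tvd (p n) ⌊(1 - δ) * t n⌋₊) atTop (𝓝 1)

section Aux

variable {G : Type} [Group G] [Fintype G] [DecidableEq G]

theorem cpow_eq (p : G → ℝ) (j : ℕ) :
    cpow p j = (H98CO.stp p)^[j] (fun x : G => if x = 1 then (1 : ℝ) else 0) := by
  induction j with
  | zero => rfl
  | succ j ih =>
    rw [Function.iterate_succ_apply', ← ih]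
    rfl

theorem sum_conv (p q : G → ℝ) (hp : ∑ x, p x = 1) (hq : ∑ x, q x = 1) :
    ∑ x, conv p q x = 1 := by
  unfold conv
  rw [Finset.sum_comm]
  have h : ∀ y : G, ∑ x : G, p y * q (y⁻¹ * x) = p y := by
    intro y
    rw [← Finset.mul_sum, H98CO.sum_shift, hq, mul_one]
  rw [Finset.sum_congr rfl fun y _ => h y, hp]

theorem sum_cpow (p : G → ℝ) (hp : ∑ x, p x = 1) (j : ℕ) : ∑ x, cpow p j x = 1 := by
  induction j with
  | zero => simp [cpow]
  | succ j ih => exact sum_conv _ _ ih hp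

/-- half the `L¹`-norm is the largest value on a set -/
theorem half_l1 (f : G → ℝ) (hf : ∑ x, f x = 0) :
    (∀ A : Finset G, |∑ x ∈ A, f x| ≤ 1 / 2 * ∑ x, |f x|) ∧
      ∃ A : Finset G, |∑ x ∈ A, f x| = 1 / 2 * ∑ x, |f x| := by
  constructor
  · intro A
    have h1 : ∑ x ∈ A, f x + ∑ x ∈ Aᶜ, f x = 0 := by
      rw [Finset.sum_add_sum_compl, hf]
    have h2 : ∑ x ∈ A, |f x| + ∑ x ∈ Aᶜ, |f x| = ∑ x, |f x| := Finset.sum_add_sum_compl A _
    have h3 := Finset.abs_sum_le_sum_abs f A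
    have h4 := Finset.abs_sum_le_sum_abs f Aᶜ
    have h5 : |∑ x ∈ Aᶜ, f x| = |∑ x ∈ A, f x| := by
      rw [show ∑ x ∈ Aᶜ, f x = -∑ x ∈ A, f x by linarith, abs_neg]
    linarith
  · refine ⟨Finset.univ.filter fun x => 0 ≤ f x, ?_⟩
    have h1 : ∑ x ∈ Finset.univ.filter (fun x => 0 ≤ f x), f x +
        ∑ x ∈ Finset.univ.filter (fun x => ¬ 0 ≤ f x), f x = 0 := by
      rw [Finset.sum_filter_add_sum_filter_not, hf]
    have h2 : ∑ x ∈ Finset.univ.filter (fun x => 0 ≤ f x), |f x| +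
        ∑ x ∈ Finset.univ.filter (fun x => ¬ 0 ≤ f x), |f x| = ∑ x, |f x| :=
      Finset.sum_filter_add_sum_filter_not _ _ _
    have h3 : ∑ x ∈ Finset.univ.filter (fun x => 0 ≤ f x), |f x| =
        ∑ x ∈ Finset.univ.filter (fun x => 0 ≤ f x), f x :=
      Finset.sum_congr rfl fun x hx => abs_of_nonneg (Finset.mem_filter.1 hx).2
    have h4 : ∑ x ∈ Finset.univ.filter (fun x => ¬ 0 ≤ f x), |f x| =
        -∑ x ∈ Finset.univ.filter (fun x => ¬ 0 ≤ f x), f x := by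
      rw [← Finset.sum_neg_distrib]
      exact Finset.sum_congr rfl fun x hx =>
        abs_of_nonpos (not_le.1 (Finset.mem_filter.1 hx).2).le
    have h5 : 0 ≤ ∑ x ∈ Finset.univ.filter (fun x => 0 ≤ f x), f x :=
      Finset.sum_nonneg fun x hx => (Finset.mem_filter.1 hx).2
    rw [abs_of_nonneg h5]
    linarith

theorem tvd_eq (p : G → ℝ) (hp : ∑ x, p x = 1) (j : ℕ) : tvd p j = H98CO.tv p j := by
  have hc : (Fintype.card G : ℝ) ≠ 0 := Nat.cast_ne_zero.2 Fintype.card_ne_zero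
  have hsum : ∀ A : Finset G, ∑ x ∈ A, (cpow p j x - 1 / (Fintype.card G : ℝ)) =
      ∑ x ∈ A, cpow p j x - (A.card : ℝ) / (Fintype.card G : ℝ) := by
    intro A
    rw [Finset.sum_sub_distrib, Finset.sum_const, nsmul_eq_mul, mul_one_div]
  have h0 : ∑ x, (cpow p j x - 1 / (Fintype.card G : ℝ)) = 0 := by
    rw [hsum, sum_cpow p hp, Finset.card_univ, div_self hc, sub_self]
  obtain ⟨h1, A, hA⟩ := half_l1 _ h0
  have htv : H98CO.tv p j = 1 / 2 * ∑ x, |cpow p j x - 1 / (Fintype.card G : ℝ)| := by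
    rw [cpow_eq]
    rfl
  rw [htv]
  unfold tvd
  apply le_antisymm
  · refine Finset.sup'_le _ _ fun B _ => ?_
    rw [← hsum]
    exact h1 B
  · rw [← hA, hsum]
    exact Finset.le_sup' (fun A : Finset G =>
      |∑ x ∈ A, cpow p j x - (A.card : ℝ) / (Fintype.card G : ℝ)|) (Finset.mem_univ A)

open scoped Pointwise in
theorem bd_eq (S A : Finset G) : bd S A = (A * S) \ A := by
  ext x
  unfold bd
  rw [Finset.mem_filter, Finset.mem_sdiff, Finset.mem_mul]
  constructor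
  · rintro ⟨-, h1, a, ha, s, hs, rfl⟩
    exact ⟨⟨a, ha, s, hs, rfl⟩, h1⟩
  · rintro ⟨⟨a, ha, s, hs, rfl⟩, h1⟩
    exact ⟨Finset.mem_univ _, h1, a, ha, s, hs, rfl⟩

/-- a set which expands generates -/
theorem generates {S : Finset G} {ε : ℝ} (hε : 0 < ε)
    (h : ∀ A : Finset G, 2 * A.card ≤ Fintype.card G → ε * (A.card : ℝ) ≤ ((bd S A).card : ℝ)) :
    Subgroup.closure (S : Set G) = ⊤ := by
  classical
  by_contra hne
  obtain ⟨H, hH⟩ : ∃ H : Subgroup G, H = Subgroup.closure (S : Set G) := ⟨_, rfl⟩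
  rw [← hH] at hne
  have h2 : 2 * Nat.card H ≤ Nat.card G := by
    have h3 : Nat.card H * H.index = Nat.card G := Subgroup.card_mul_index H
    have h4 : H.index ≠ 1 := fun h5 => hne (Subgroup.index_eq_one.1 h5)
    have h5 : H.index ≠ 0 := Subgroup.index_ne_zero_of_finite
    rw [← h3, mul_comm 2]
    exact Nat.mul_le_mul_left _ (by omega)
  let A : Finset G := Finset.univ.filter fun x => x ∈ H
  have hA : A.card = Nat.card H := by
    rw [Nat.card_eq_fintype_card, Fintype.card_subtype]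
  have h3 := h A (by rw [hA, ← Nat.card_eq_fintype_card]; exact h2)
  have h4 : bd S A = ∅ := by
    rw [Finset.eq_empty_iff_forall_notMem]
    intro x hx
    obtain ⟨-, h5, a, ha, s, hs, rfl⟩ := Finset.mem_filter.1 hx
    apply h5
    refine Finset.mem_filter.2 ⟨Finset.mem_univ _, H.mul_mem (Finset.mem_filter.1 ha).2 ?_⟩
    rw [hH]
    exact Subgroup.subset_closure hs
  rw [h4, hA, Finset.card_empty, Nat.cast_zero] at h3
  have h5 : 0 < (Nat.card H : ℝ) := Nat.cast_pos.2 Nat.card_pos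
  nlinarith

theorem card_le {S : Finset G} {p : G → ℝ} {r : ℝ} (hr : 0 < r) (h0 : ∀ g, 0 ≤ p g)
    (h1 : ∑ g, p g = 1) (hS : ∀ s ∈ S, 1 / r ≤ p s) : S.card ≤ ⌊r⌋₊ := by
  apply Nat.le_floor
  have h2 : (S.card : ℝ) * (1 / r) ≤ 1 := by
    rw [← nsmul_eq_mul, ← Finset.sum_const]
    exact ((Finset.sum_le_sum hS).trans (Finset.sum_le_univ_sum_of_nonneg h0)).trans h1.le
  rwa [mul_one_div, div_le_one hr] at h2

end Aux

theorem no_cut (G : ℕ → Type) [∀ n, Group (G n)] [∀ n, Fintype (G n)]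
    [∀ n, DecidableEq (G n)] (p : ∀ n, G n → ℝ) (hp0 : ∀ n, ∀ g : G n, 0 ≤ p n g)
    (hp1 : ∀ n, ∑ g : G n, p n g = 1) (c : ℝ) (hc : 0 < c) (T : ℕ → ℕ)
    (h1 : ∀ n, tvd (p n) (24 * T n) ≤ 1 - c ∧ c ≤ tvd (p n) (29 * T n)) :
    ¬ HasCutoff G p := by
  rintro ⟨t, ht, hcut⟩
  obtain ⟨hup, hlow⟩ := hcut (1 / 20) (by norm_num) (by norm_num)
  have hup' : ∀ᶠ n in atTop, tvd (p n) ⌊(1 + 1 / 20) * t n⌋₊ < c :=
    hup.eventually (gt_mem_nhds hc)
  have hlow' : ∀ᶠ n in atTop, 1 - c < tvd (p n) ⌊(1 - 1 / 20) * t n⌋₊ :=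
    hlow.eventually (lt_mem_nhds (by linarith))
  have ht' : ∀ᶠ n in atTop, 0 < t n := ht.eventually_gt_atTop 0
  obtain ⟨n, hu, hl, ht0⟩ := (hup'.and (hlow'.and ht')).exists
  obtain ⟨ha, hb⟩ := h1 n
  rw [tvd_eq _ (hp1 n)] at hu hl ha hb
  have e1 : 29 * T n < ⌊(1 + 1 / 20) * t n⌋₊ := by
    by_contra hcon
    have := H98CO.tv_anti (p n) (hp0 n) (hp1 n) (not_lt.1 hcon)
    linarith
  have e2 : ⌊(1 - 1 / 20) * t n⌋₊ < 24 * T n := by
    by_contra hcon
    have := H98CO.tv_anti (p n) (hp0 n) (hp1 n) (not_lt.1 hcon)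
    linarith
  have e3 : ((29 * T n : ℕ) : ℝ) < (1 + 1 / 20) * t n :=
    (Nat.cast_lt.2 e1).trans_le (Nat.floor_le (by positivity))
  have e4 : (1 - 1 / 20) * t n < ((24 * T n : ℕ) : ℝ) := (Nat.floor_lt (by positivity)).mp e2
  push_cast at e3 e4
  linarith

/-- There are a constant `r > 0`, a family of expanders `(G n, S n)` and laws `p n` with the
hypotheses (H) such that no subsequence of `(G n, p n)` has a cut-off in total variation. More
precisely there are `c > 0` and times `T n → ∞` such that for every `n` the distance at time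
`24 T n` is at most `1 - c` and the distance at time `29 T n` is at least `c`. -/
theorem result : ∃ (r : ℝ) (G : ℕ → Type) (_ : ∀ n, Group (G n)) (_ : ∀ n, Fintype (G n))
    (_ : ∀ n, DecidableEq (G n)) (S : ∀ n, Finset (G n)) (p : ∀ n, G n → ℝ),
    0 < r ∧ Hyp r G S p ∧
    (∀ φ : ℕ → ℕ, StrictMono φ → ¬ HasCutoff (fun n => G (φ n)) (fun n => p (φ n))) ∧
    ∃ (c : ℝ) (T : ℕ → ℕ), 0 < c ∧ Tendsto T atTop atTop ∧
      ∀ n, tvd (p n) (24 * T n) ≤ 1 - c ∧ c ≤ tvd (p n) (29 * T n) := by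
  obtain ⟨q, hq, hqp⟩ := Nat.exists_infinite_primes (324 ^ 9)
  have : Fact q.Prime := ⟨hqp⟩
  have hqR : (324 : ℝ) ^ 9 ≤ q := by exact_mod_cast hq
  obtain ⟨c, hc, m0, hst⟩ := Pool.Agent.Lib_helper64.Cut.stage hqR
  choose G iG iF iD S p h1 h2 h3 h4 h5 h6 h7 h8 h9 h10 using
    fun n : ℕ => hst (n + m0) (Nat.le_add_left _ _)
  have hcc := Pool.Agent.Lib_helper64.Cut.cc_pos
  have hr := Pool.Agent.Lib_helper64.Cut.rC_pos q
  have hbd : ∀ n, ∀ A : Finset (G n), 2 * A.card ≤ Fintype.card (G n) →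
      c * (A.card : ℝ) ≤ ((bd (S n) A).card : ℝ) := by
    intro n A hA
    rw [bd_eq]
    exact h4 n A hA
  have hT : ∀ n, tvd (p n) (24 * (1000 * (n + m0))) ≤ 1 - Pool.Agent.Lib_helper64.Cut.cc ∧
      Pool.Agent.Lib_helper64.Cut.cc ≤ tvd (p n) (29 * (1000 * (n + m0))) := by
    intro n
    rw [tvd_eq _ (h6 n), tvd_eq _ (h6 n), ← mul_assoc, ← mul_assoc]
    exact ⟨h9 n, h10 n⟩
  refine ⟨Pool.Agent.Lib_helper64.Cut.rC q, G, iG, iF, iD, S, p, hr, ⟨⟨?_, ?_⟩, ?_⟩, ?_, ?_⟩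
  · exact tendsto_atTop_mono (fun n => (Nat.le_add_right n m0).trans (h1 n)) tendsto_id
  · refine ⟨⌊Pool.Agent.Lib_helper64.Cut.rC q⌋₊, c, hc, fun n =>
      ⟨card_le hr (h5 n) (h6 n) (h7 n), rfl, rfl, h3 n, generates hc (hbd n), ?_⟩⟩
    intro A hA
    apply hbd n A
    have h11 : 2 * (A.card : ℝ) ≤ (Fintype.card (G n) : ℝ) := by linarith
    exact_mod_cast h11
  · intro n
    refine ⟨h2 n, h5 n, h6 n, h7 n, ?_⟩
    refine le_trans ?_ (h8 n)
    rw [Nat.cast_le]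
    refine Finset.card_le_card fun g hg => ?_
    rw [Finset.mem_filter] at hg ⊢
    exact ⟨hg.1, hg.2.ne'⟩
  · intro φ hφ
    exact no_cut (fun n => G (φ n)) (fun n => p (φ n)) (fun n => h5 (φ n)) (fun n => h6 (φ n)) _
      hcc (fun n => 1000 * (φ n + m0)) (fun n => hT (φ n))
  · refine ⟨Pool.Agent.Lib_helper64.Cut.cc, fun n => 1000 * (n + m0), hcc, ?_, hT⟩
    refine tendsto_atTop_mono (fun n => ?_) tendsto_id
    change n ≤ 1000 * (n + m0)
    omega

end Pool.Agent.Results.MP_243c22_pr.ExpanderNoCutoff
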